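import Pool.Agent.L0h32.UX.Stm

/-!
# UX.LAY (helper4): minimal weights of the next layer
-/

set_option autoImplicit false

namespace Pool.Agent.L0h4.UX

open Pool.Agent.L0h32.UX

section

variable {P : Type} {S : P → Prop} {Eg : ℕ → P → P → Prop} {wt : ℕ → P → P → ℕ}

theorem wp_le {j : ℕ} {p : P} {l : ℕ} {q : P} {v : ℕ} (h : GWp Eg wt j p l q v) : j ≤ l := by
  induction h with
  | refl j p => exact le_refl _
  | cons j l p p' q v he hw ih => omega

theorem wp_eq {j : ℕ} {p q : P} {v : ℕ} (h : GWp Eg wt j p j q v) : p = q ∧ v = 0 := by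
  cases h with
  | refl => exact ⟨rfl, rfl⟩
  | cons _ _ _ p' _ v he hw =>
    have := wp_le hw
    omega

theorem wp_snoc {j : ℕ} {p : P} {l' : ℕ} {q : P} {v : ℕ} (h : GWp Eg wt j p l' q v) :
    ∀ l, l' = l + 1 → j ≤ l → ∃ (m : P) (r : ℕ), GWp Eg wt j p l m r ∧ Eg l m q ∧ v = r + wt l m q := by
  induction h with
  | refl j p => intro l h1 h2; omega
  | cons j l' p p' q v he hw ih =>
    intro l h1 h2
    rcases Nat.lt_or_ge j l with h3 | h3
    · obtain ⟨m, r, h4, h5, h6⟩ := ih l h1 h3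
      exact ⟨m, wt j p p' + r, GWp.cons j l p p' m r he h4, h5, by omega⟩
    · have h4 : j = l := le_antisymm h2 h3
      subst h4
      subst h1
      obtain ⟨h5, h6⟩ := wp_eq hw
      subst h5
      exact ⟨p, 0, GWp.refl j p, he, by omega⟩

theorem pw_wp {j : ℕ} {p : P} {l : ℕ} {q : P} {r : ℕ} (h : GWp Eg wt j p l q r) :
    ∀ v, GPw S Eg wt j p v → GPw S Eg wt l q (v + r) := by
  induction h with
  | refl j p => intro v hv; exact hv
  | cons j l p p' q v he hw ih =>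
    intro u hu
    have h1 : GPw S Eg wt (j + 1) p' (u + wt j p p') := ⟨p, u, hu, he, rfl⟩
    have h2 := ih _ h1
    rwa [add_assoc] at h2

theorem dm_mem {j : ℕ} {p : P} (h : ∃ v, GPw S Eg wt j p v) : GPw S Eg wt j p (GDm S Eg wt j p) :=
  Nat.sInf_mem (s := {v | GPw S Eg wt j p v}) h

theorem dm_le {j : ℕ} {p : P} {v : ℕ} (h : GPw S Eg wt j p v) : GDm S Eg wt j p ≤ v :=
  Nat.sInf_le (s := {v | GPw S Eg wt j p v}) h

theorem dm_step {l : ℕ} {p q : P} (h : ∃ v, GPw S Eg wt l p v) (he : Eg l p q) :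
    GDm S Eg wt (l + 1) q ≤ GDm S Eg wt l p + wt l p q :=
  dm_le ⟨p, _, dm_mem h, he, rfl⟩

/-- a vertex on a minimal path: the last but one vertex -/
theorem on_snoc {j l : ℕ} {p q : P} (hj : j ≤ l) (h : GOn S Eg wt j p (l + 1) q) :
    ∃ m, (∃ v, GPw S Eg wt l m v) ∧ Eg l m q ∧ GDm S Eg wt l m + wt l m q = GDm S Eg wt (l + 1) q ∧
      GOn S Eg wt j p l m := by
  obtain ⟨v, r, h1, h2, h3⟩ := h
  obtain ⟨m, r', h4, h5, h6⟩ := wp_snoc h2 l rfl hj
  have h7 : GPw S Eg wt l m (v + r') := pw_wp h4 v h1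
  have h8 := dm_le h7
  have h9 := dm_step ⟨_, h7⟩ h5
  refine ⟨m, ⟨_, h7⟩, h5, by omega, v, r', h1, h4, by omega⟩

end

theorem t_LAY : S_LAY := by
  intro P _ S Eg wt l q hU
  refine ⟨?_, ?_, ?_, ?_⟩
  · constructor
    · rintro ⟨v, p, u, h1, h2, h3⟩
      exact ⟨p, ⟨u, h1⟩, h2⟩
    · rintro ⟨p, ⟨u, h1⟩, h2⟩
      exact ⟨_, p, u, h1, h2, rfl⟩
  · intro p h1 h2
    exact dm_step h1 h2
  · intro h
    obtain ⟨p, u, h1, h2, h3⟩ := dm_mem h
    have h4 := dm_le h1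
    have h5 := dm_step ⟨_, h1⟩ h2
    exact ⟨p, ⟨u, h1⟩, h2, by omega⟩
  · constructor
    · intro h p p' h1 h2 h3 h1' h2' h3'
      refine h l (Nat.le_succ l) p p' ?_ ?_
      · exact ⟨_, _, dm_mem h1, GWp.cons l (l + 1) p q q 0 h2 (GWp.refl _ _), by omega⟩
      · exact ⟨_, _, dm_mem h1', GWp.cons l (l + 1) p' q q 0 h2' (GWp.refl _ _), by omega⟩
    · intro h j hj p p' h1 h2
      rcases Nat.lt_or_ge l j with h3 | h3
      · have h4 : j = l + 1 := by omega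
        subst h4
        obtain ⟨v, r, -, h5, -⟩ := h1
        obtain ⟨v', r', -, h5', -⟩ := h2
        exact (wp_eq h5).1.trans (wp_eq h5').1.symm
      · obtain ⟨m, a1, a2, a3, a4⟩ := on_snoc h3 h1
        obtain ⟨m', b1, b2, b3, b4⟩ := on_snoc h3 h2
        have h4 : m = m' := h m m' a1 a2 a3 b1 b2 b3
        subst h4
        exact hU m j h3 p p' a4 b4

end Pool.Agent.L0h4.UX
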